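import Pool.Agent.helper36.UT.Spec

/-! COM: the exponents of a factor of `1 + 2 ^ u`. -/

set_option autoImplicit false

open Filter Polynomial FirstOrder FirstOrder.Language

namespace Pool.Agent.UnivT

theorem COM_max {α : Type} (l : List α) (hl : l ≠ []) (f : α → ℚ) :
    ∃ x ∈ l, ∀ y ∈ l, f y ≤ f x := by
  classical
  obtain ⟨a, ha⟩ := List.exists_mem_of_ne_nil l hl
  obtain ⟨x, hx, h⟩ := Finset.exists_max_image l.toFinset f ⟨a, List.mem_toFinset.2 ha⟩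
  exact ⟨x, List.mem_toFinset.1 hx, fun y hy => h y (List.mem_toFinset.2 hy)⟩

/-- the subspace of the eventually constant sequences -/
def COM_K : Submodule ℚ (ℕ → ℚ) where
  carrier := {g | ∃ c : ℚ, ∀ᶠ H : ℕ in atTop, g H = c}
  add_mem' := by
    rintro g g' ⟨c, hc⟩ ⟨c', hc'⟩
    refine ⟨c + c', ?_⟩
    filter_upwards [hc, hc'] with H h h'
    rw [Pi.add_apply, h, h']
  zero_mem' := ⟨0, Eventually.of_forall fun _ => rfl⟩
  smul_mem' := by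
    rintro a g ⟨c, hc⟩
    refine ⟨a * c, ?_⟩
    filter_upwards [hc] with H h
    rw [Pi.smul_apply, h, smul_eq_mul]

theorem COM_deg (hGRM : GRM_stmt) (k : ℕ) (φ : (ℕ → ℚ) →ₗ[ℚ] ℚ) (hφ : Kill φ)
    (l1 l2 : List (ℚ × (ℕ → ℤ))) (u : ℕ → ℤ) (h0 : Lev k fun _ => 0)
    (h1 : ∀ x ∈ l1, Lev k x.2) (h2 : ∀ x ∈ l2, Lev k x.2) (hu : Lev k u) (n1 : NF l1) (n2 : NF l2)
    (hφu : φ (fun H => (u H : ℚ)) = 0)
    (hev : ∀ᶠ H : ℕ in atTop, ev l1 H * ev l2 H = 1 + (2 : ℚ) ^ (u H))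
    (x1 x2 : ℚ × (ℕ → ℤ)) (hx1 : x1 ∈ l1) (hx2 : x2 ∈ l2) (m1 : ∀ y ∈ l1, ph φ y ≤ ph φ x1)
    (m2 : ∀ y ∈ l2, ph φ y ≤ ph φ x2) : ph φ x1 + ph φ x2 = 0 := by
  obtain ⟨z, hz, hz'⟩ := hGRM k φ hφ l1 l2 [((1 : ℚ), fun _ => (0 : ℤ)), ((1 : ℚ), u)] h1 h2
    (by
      intro x hx
      simp only [List.mem_cons, List.not_mem_nil, or_false] at hx
      rcases hx with rfl | rfl
      · exact h0
      · exact hu) n1 n2
    (by
      filter_upwards [hev] with H h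
      rw [h, ev_cons, ev_cons, ev_nil]
      simp) (ph φ x1) (ph φ x2) m1 ⟨x1, hx1, rfl⟩ m2 ⟨x2, hx2, rfl⟩
  rw [← hz']
  simp only [List.mem_cons, List.not_mem_nil, or_false] at hz
  rcases hz with rfl | rfl
  · exact hφ _ 0 (Eventually.of_forall fun _ => by simp)
  · exact hφu

theorem COM (hLGD : LGD_stmt) (hGRM : GRM_stmt) : COM_stmt := by
  intro k l1 l2 u h1 h2 hu n1 n2 hl2 hc hev y hy
  obtain ⟨x₀, hx₀, c₀, hc₀⟩ := hc
  have h0 : Lev k fun _ => 0 := (hLGD k).1 0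
  let uq : ℕ → ℚ := fun H => (u H : ℚ)
  let yq : ℕ → ℚ := fun H => (y.2 H : ℚ)
  by_cases hmem : yq ∈ COM_K ⊔ Submodule.span ℚ {uq}
  · obtain ⟨g, ⟨γ, hγ⟩, w, hw, hgw⟩ := Submodule.mem_sup.1 hmem
    obtain ⟨α, rfl⟩ := Submodule.mem_span_singleton.1 hw
    refine ⟨α, γ, ?_⟩
    filter_upwards [hγ] with H h
    have h3 := congrFun hgw H
    rw [Pi.add_apply, Pi.smul_apply, h, smul_eq_mul] at h3
    change yq H = α * uq H + γ
    rw [← h3]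
    ring
  exfalso
  obtain ⟨φ, hφy, hφ⟩ := Submodule.exists_le_ker_of_notMem hmem
  have hkill : Kill φ := by
    intro g c hg
    have h3 : ∀ g' : ℕ → ℚ, g' ∈ COM_K → φ g' = 0 := fun g' hg' =>
      hφ (Submodule.mem_sup_left hg')
    exact h3 g ⟨c, hg⟩
  have hφu : φ uq = 0 :=
    hφ (Submodule.mem_sup_right (Submodule.mem_span_singleton_self uq))
  have hkill' : Kill (-φ) := by
    intro g c hg
    rw [LinearMap.neg_apply, hkill g c hg, neg_zero]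
  have hφu' : (-φ) uq = 0 := by
    rw [LinearMap.neg_apply, hφu, neg_zero]
  have hl1 : l1 ≠ [] := List.ne_nil_of_mem hx₀
  have hneg : ∀ x, ph (-φ) x = - ph φ x := fun x => rfl
  obtain ⟨a1, ha1, b1⟩ := COM_max l1 hl1 (ph φ)
  obtain ⟨a2, ha2, b2⟩ := COM_max l2 hl2 (ph φ)
  obtain ⟨a3, ha3, b3⟩ := COM_max l1 hl1 (ph (-φ))
  obtain ⟨a4, ha4, b4⟩ := COM_max l2 hl2 (ph (-φ))
  have e1 := COM_deg hGRM k φ hkill l1 l2 u h0 h1 h2 hu n1 n2 hφu hev a1 a2 ha1 ha2 b1 b2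
  have e2 := COM_deg hGRM k (-φ) hkill' l1 l2 u h0 h1 h2 hu n1 n2 hφu' hev a3 a4 ha3 ha4 b3 b4
  simp only [hneg] at e2 b3 b4
  have c1 := b1 a3 ha3
  have c2 := b2 a4 ha4
  have c3 := b1 x₀ hx₀
  have c4 := b3 x₀ hx₀
  have c5 := b1 y hy
  have c6 := b3 y hy
  have hx0 : ph φ x₀ = 0 := by
    refine hkill _ (c₀ : ℚ) ?_
    filter_upwards [hc₀] with H h
    rw [h]
  have : ph φ y = 0 := by linarith
  exact hφy this

end Pool.Agent.UnivT
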