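import Pool.Agent.helper36.UT.Spec

/-! LEN: the number of binary digits. -/

set_option autoImplicit false

open Filter Polynomial FirstOrder FirstOrder.Language

namespace Pool.Agent.UnivT

theorem LEN_digits (n : ℕ) (e : ℤ) (hn : 1 ≤ n) (h1 : (2 : ℚ) ^ (e - 1) ≤ n)
    (h2 : (n : ℚ) < 2 ^ e) : ((Nat.digits 2 n).length : ℤ) = e := by
  have he : 0 < e := by
    by_contra h
    have h3 : (2 : ℚ) ^ e ≤ 2 ^ (0 : ℤ) := zpow_le_zpow_right₀ (by norm_num) (by omega)
    rw [zpow_zero] at h3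
    have h4 : (1 : ℚ) ≤ n := by exact_mod_cast hn
    linarith
  obtain ⟨m, rfl⟩ : ∃ m : ℕ, e = (m : ℤ) + 1 := ⟨(e - 1).toNat, by omega⟩
  rw [add_sub_cancel_right, zpow_natCast] at h1
  have h2' : (n : ℚ) < 2 ^ (m + 1) := by
    rw [← zpow_natCast]
    push_cast
    exact h2
  have h3 : Nat.log 2 n = m := by
    rw [Nat.log_eq_iff (Or.inr ⟨by norm_num, by omega⟩)]
    constructor
    · exact_mod_cast h1
    · exact_mod_cast h2'
  rw [Nat.length_digits 2 n (by norm_num) (by omega), h3]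
  push_cast
  rfl

theorem LEN_pow (x : ℕ → ℤ) (H : ℕ) (c : ℤ) : (2 : ℚ) ^ (x H + c) = 2 ^ (x H) * 2 ^ c :=
  zpow_add₀ (by norm_num) _ _

theorem LEN_pos (hLGD : LGD_stmt) (hLSU : LSU_stmt) (hAFF : AFF_stmt) (hSTD : STD_stmt)
    (hDOM : DOM_stmt) (k : ℕ) (f : ℕ → ℤ) (hf : Lev (k + 1) f) (hinf : Tendsto f atTop atTop) :
    Lev (k + 1) fun H => ((Nat.digits 2 (f H).natAbs).length : ℤ) := by
  obtain ⟨q, l, hl, hfar, hev⟩ := hSTD k f hf
  cases l with
  | nil =>
    exfalso
    have h1 : ∀ᶠ H : ℕ in atTop, ⌈q⌉ + 1 ≤ f H := hinf.eventually_ge_atTop _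
    obtain ⟨H, h2, h3⟩ := (hev.and h1).exists
    rw [ev_nil, add_zero] at h2
    have h4 : ((⌈q⌉ : ℤ) : ℚ) + 1 ≤ f H := by exact_mod_cast h3
    have h5 := Int.le_ceil q
    linarith
  | cons x m =>
    obtain ⟨hx1, hx2, hx3⟩ := hl x List.mem_cons_self
    have hfx : ∀ y ∈ m, Far x y := (List.pairwise_cons.1 hfar).1
    -- the remainder
    have hrem : ∀ ε : ℚ, 0 < ε → ∀ᶠ H : ℕ in atTop, |(f H : ℚ) - x.1 * 2 ^ (x.2 H)| ≤
        ε * 2 ^ (x.2 H) := by
      intro ε hε
      have h1 := hDOM x (((q, fun _ => (0 : ℤ)) : ℚ × (ℕ → ℤ)) :: m) (by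
        intro y hy
        rcases List.mem_cons.1 hy with rfl | hy
        · change Tendsto (fun H => x.2 H - 0) atTop atTop
          simpa using hx3
        · exact hfx y hy) ε hε
      filter_upwards [h1, hev] with H h2 h3
      rw [ev_cons] at h2 h3
      have h4 : (f H : ℚ) - x.1 * 2 ^ (x.2 H) = q * 2 ^ (0 : ℤ) + ev m H := by
        rw [h3, zpow_zero]
        ring
      rw [h4]
      exact h2
    have hfpos : ∀ᶠ H : ℕ in atTop, 1 ≤ f H := hinf.eventually_ge_atTop 1
    have hp : ∀ H : ℕ, (0 : ℚ) < 2 ^ (x.2 H) := fun H => zpow_pos (by norm_num) _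
    have hxpos : 0 < x.1 := by
      rcases lt_or_gt_of_ne hx2 with h | h
      · exfalso
        obtain ⟨H, h1, h2⟩ := ((hrem (-x.1) (by linarith)).and hfpos).exists
        have h3 := (abs_le.1 h1).2
        have h4 : (1 : ℚ) ≤ f H := by exact_mod_cast h2
        nlinarith [hp H]
      · exact h
    have hup : ∀ c : ℤ, x.1 < 2 ^ c → ∀ᶠ H : ℕ in atTop, (f H : ℚ) < 2 ^ (x.2 H + c) := by
      intro c hc
      filter_upwards [hrem ((2 ^ c - x.1) / 2) (by linarith)] with H h1
      have h2 := (abs_le.1 h1).2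
      rw [LEN_pow]
      nlinarith [hp H]
    have hlow : ∀ c : ℤ, (2 : ℚ) ^ c < x.1 → ∀ᶠ H : ℕ in atTop, (2 : ℚ) ^ (x.2 H + c) ≤ f H := by
      intro c hc
      filter_upwards [hrem ((x.1 - 2 ^ c) / 2) (by linarith)] with H h1
      have h2 := (abs_le.1 h1).1
      rw [LEN_pow]
      nlinarith [hp H]
    have hclaim : ∃ c : ℤ, ∀ᶠ H : ℕ in atTop, (2 : ℚ) ^ (x.2 H + c - 1) ≤ f H ∧
        (f H : ℚ) < 2 ^ (x.2 H + c) := by
      obtain ⟨c, hc1, hc2⟩ := exists_mem_Ico_zpow hxpos (by norm_num : (1 : ℚ) < 2)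
      have hup1 := hup (c + 1) hc2
      rcases eq_or_lt_of_le hc1 with heq | hlt
      swap
      · refine ⟨c + 1, ?_⟩
        filter_upwards [hup1, hlow c hlt] with H h1 h2
        refine ⟨?_, h1⟩
        rw [← add_assoc, add_sub_cancel_right]
        exact h2
      -- the critical case
      have hLh : Lev (k + 1) fun H => 2 ^ (x.2 H + c).toNat := by
        refine ⟨[((1 : ℚ), fun H => x.2 H + c)], ?_, ?_⟩
        · intro y hy
          rw [List.mem_singleton] at hy
          rw [hy]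
          refine hAFF k x.2 _ 1 c hx1 (Eventually.of_forall fun H => ?_)
          push_cast
          ring
        · filter_upwards [hx3.eventually_ge_atTop (-c)] with H h1
          rw [ev_cons, ev_nil]
          push_cast
          rw [one_mul, add_zero, ← zpow_natCast, Int.toNat_of_nonneg (by omega)]
      have hsub := (hLGD (k + 1)).2.1 _ _ hf hLh
      have hsign : (∀ᶠ H : ℕ in atTop, 0 ≤ f H - 2 ^ (x.2 H + c).toNat) ∨
          (∀ᶠ H : ℕ in atTop, f H - 2 ^ (x.2 H + c).toNat < 0) := by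
        rcases (hLGD (k + 1)).2.2.2 _ hsub with ⟨z, hz⟩ | hz | hz
        · rcases le_or_gt 0 z with h | h
          · left
            filter_upwards [hz] with H h1
            rw [h1]
            exact h
          · right
            filter_upwards [hz] with H h1
            rw [h1]
            exact h
        · left
          exact hz.eventually_ge_atTop 0
        · right
          exact hz.eventually_lt_atBot 0
      have hcast : ∀ᶠ H : ℕ in atTop, (((2 : ℤ) ^ (x.2 H + c).toNat : ℤ) : ℚ) = 2 ^ (x.2 H + c) := by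
        filter_upwards [hx3.eventually_ge_atTop (-c)] with H h1
        push_cast
        rw [← zpow_natCast, Int.toNat_of_nonneg (by omega)]
      rcases hsign with h | h
      · refine ⟨c + 1, ?_⟩
        filter_upwards [hup1, h, hcast] with H h1 h2 h3
        refine ⟨?_, h1⟩
        rw [← add_assoc, add_sub_cancel_right, ← h3]
        exact_mod_cast (by linarith : (2 : ℤ) ^ (x.2 H + c).toNat ≤ f H)
      · refine ⟨c, ?_⟩
        have hlow1 := hlow (c - 1) (by
          rw [← heq]
          exact zpow_lt_zpow_right₀ (by norm_num) (by omega))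
        filter_upwards [hlow1, h, hcast] with H h1 h2 h3
        refine ⟨?_, ?_⟩
        · rw [add_sub_assoc]
          exact h1
        · rw [← h3]
          exact_mod_cast (by linarith : f H < (2 : ℤ) ^ (x.2 H + c).toNat)
    obtain ⟨c, hc⟩ := hclaim
    have hLk : Lev k fun H => x.2 H + c := by
      refine hAFF k x.2 _ 1 c hx1 (Eventually.of_forall fun H => ?_)
      push_cast
      ring
    refine (hLGD (k + 1)).2.2.1 _ _ (hLSU k _ hLk) ?_
    filter_upwards [hc, hfpos] with H h1 h2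
    have h3 : (((f H).natAbs : ℕ) : ℚ) = f H := by
      rw [← Int.cast_natCast, Int.natAbs_of_nonneg (by omega)]
    refine (LEN_digits (f H).natAbs (x.2 H + c) (by omega) ?_ ?_).symm
    · rw [h3]
      exact h1.1
    · rw [h3]
      exact h1.2

theorem LEN (hLGD : LGD_stmt) (hLSU : LSU_stmt) (hAFF : AFF_stmt) (hSTD : STD_stmt)
    (hDOM : DOM_stmt) : LEN_stmt := by
  intro k f hf
  rcases (hLGD (k + 1)).2.2.2 f hf with ⟨c, hc⟩ | h | h
  · refine (hLGD (k + 1)).2.2.1 _ _ ((hLGD (k + 1)).1 ((Nat.digits 2 c.natAbs).length : ℤ)) ?_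
    filter_upwards [hc] with H h1
    rw [h1]
  · exact LEN_pos hLGD hLSU hAFF hSTD hDOM k f hf h
  · have h1 : Lev (k + 1) fun H => 0 - f H :=
      (hLGD (k + 1)).2.1 _ _ ((hLGD (k + 1)).1 0) hf
    have h2 : Tendsto (fun H => 0 - f H) atTop atTop := by
      simp only [zero_sub]
      exact tendsto_neg_atBot_atTop.comp h
    have h3 := LEN_pos hLGD hLSU hAFF hSTD hDOM k _ h1 h2
    simp only [zero_sub, Int.natAbs_neg] at h3
    exact h3

end Pool.Agent.UnivT
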