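import Pool.Agent.helper36.UT.Spec

/-! SHR: shifts. -/

set_option autoImplicit false

open Filter Polynomial FirstOrder FirstOrder.Language

namespace Pool.Agent.UnivT

/-- the shifted list -/
def SHR_sh (E : ℕ → ℤ) (l : List (ℚ × (ℕ → ℤ))) : List (ℚ × (ℕ → ℤ)) :=
  l.map fun x => (x.1, fun H => x.2 H - E H)

theorem SHR_ev (E : ℕ → ℤ) (l : List (ℚ × (ℕ → ℤ))) (H : ℕ) :
    ev (SHR_sh E l) H = ev l H * 2 ^ (-(E H)) := by
  induction l with
  | nil => simp [SHR_sh, ev_nil]
  | cons x l ih =>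
    have h1 : SHR_sh E (x :: l) = (x.1, fun H => x.2 H - E H) :: SHR_sh E l := rfl
    rw [h1, ev_cons, ev_cons, ih]
    change x.1 * 2 ^ (x.2 H - E H) + _ = _
    rw [sub_eq_add_neg, zpow_add₀ (by norm_num : (2 : ℚ) ≠ 0)]
    ring

theorem SHR_ev_filter (p : ℚ × (ℕ → ℤ) → Bool) (l : List (ℚ × (ℕ → ℤ))) (H : ℕ) :
    ev l H = ev (l.filter p) H + ev (l.filter fun x => !p x) H := by
  induction l with
  | nil => simp [ev_nil]
  | cons x l ih =>
    rw [ev_cons, ih]
    by_cases h : p x = true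
    · rw [List.filter_cons_of_pos h, List.filter_cons_of_neg (by simp [h]), ev_cons]
      ring
    · rw [List.filter_cons_of_neg h, List.filter_cons_of_pos (by simp [h]), ev_cons]
      ring

/-- terms with bounded exponents: a constant and a rest with exponents `→ -∞` -/
theorem SHR_const (k : ℕ) (l : List (ℚ × (ℕ → ℤ))) (h : ∀ x ∈ l, Lev k x.2)
    (h' : ∀ x ∈ l, (∃ c : ℤ, ∀ᶠ H : ℕ in atTop, x.2 H = c) ∨ Tendsto x.2 atTop atBot) :
    ∃ (q : ℚ) (T : List (ℚ × (ℕ → ℤ))), (∀ x ∈ T, Lev k x.2 ∧ Tendsto x.2 atTop atBot) ∧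
      ∀ᶠ H : ℕ in atTop, ev l H = q + ev T H := by
  induction l with
  | nil => exact ⟨0, [], by simp, Eventually.of_forall fun H => by simp [ev_nil]⟩
  | cons x l ih =>
    obtain ⟨q, T, hT, hq⟩ := ih (fun y hy => h y (List.mem_cons_of_mem _ hy))
      (fun y hy => h' y (List.mem_cons_of_mem _ hy))
    rcases h' x List.mem_cons_self with ⟨c, hc⟩ | hx
    · refine ⟨x.1 * 2 ^ c + q, T, hT, ?_⟩
      filter_upwards [hc, hq] with H h1 h2
      rw [ev_cons, h1, h2]
      ring
    · refine ⟨q, x :: T, ?_, ?_⟩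
      · intro y hy
        rcases List.mem_cons.1 hy with rfl | hy
        · exact ⟨h _ List.mem_cons_self, hx⟩
        · exact hT y hy
      · filter_upwards [hq] with H h2
        rw [ev_cons, ev_cons, h2]
        ring

theorem SHR_small (l : List (ℚ × (ℕ → ℤ))) (h : ∀ x ∈ l, Tendsto x.2 atTop atBot) :
    ∀ ε : ℚ, 0 < ε → ∀ᶠ H : ℕ in atTop, |ev l H| < ε := by
  induction l with
  | nil =>
    intro ε hε
    exact Eventually.of_forall fun H => by simpa [ev_nil] using hε
  | cons x l ih =>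
    intro ε hε
    have h1 := ih (fun y hy => h y (List.mem_cons_of_mem _ hy)) (ε / 2) (by linarith)
    have h2 := h x List.mem_cons_self
    have h3 : ∀ᶠ H : ℕ in atTop, |x.1 * 2 ^ (x.2 H)| < ε / 2 := by
      obtain ⟨n, hn⟩ := exists_pow_lt_of_lt_one (show (0 : ℚ) < ε / 2 / (|x.1| + 1) by positivity)
        (show (1 / 2 : ℚ) < 1 by norm_num)
      filter_upwards [h2.eventually_le_atBot (-(n : ℤ))] with H h4
      have h5 : (2 : ℚ) ^ (x.2 H) ≤ (1 / 2) ^ n := by
        calc (2 : ℚ) ^ (x.2 H) ≤ 2 ^ (-(n : ℤ)) := zpow_le_zpow_right₀ (by norm_num) h4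
          _ = (1 / 2) ^ n := by
              rw [zpow_neg, zpow_natCast, one_div, inv_pow]
      have h6 : (0 : ℚ) < 2 ^ (x.2 H) := zpow_pos (by norm_num) _
      rw [lt_div_iff₀ (by positivity)] at hn
      rw [abs_mul, abs_of_pos h6]
      calc |x.1| * 2 ^ (x.2 H) ≤ |x.1| * (1 / 2) ^ n := mul_le_mul_of_nonneg_left h5 (abs_nonneg _)
        _ ≤ (1 / 2) ^ n * (|x.1| + 1) := by
            have : (0 : ℚ) < (1 / 2) ^ n := by positivity
            nlinarith
        _ < ε / 2 := hn
    filter_upwards [h1, h3] with H h4 h5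
    rw [ev_cons]
    calc |x.1 * 2 ^ (x.2 H) + ev l H| ≤ |x.1 * 2 ^ (x.2 H)| + |ev l H| := abs_add_le _ _
      _ < ε := by linarith

theorem SHR (hLGD : LGD_stmt) (hSIG : SIG_stmt) (hFRA : FRA_stmt) : SHR_stmt := by
  classical
  intro k q l f E hstd hE hEinf
  obtain ⟨hl, hfar, hev⟩ := hstd
  let P : ℚ × (ℕ → ℤ) → Bool := fun x => decide (Tendsto (fun H => x.2 H - E H) atTop atTop)
  have hP : ∀ x, P x = true ↔ Tendsto (fun H => x.2 H - E H) atTop atTop := fun x => by
    simp [P]
  have hlevsub : ∀ x ∈ l, Lev k fun H => x.2 H - E H := fun x hx =>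
    (hLGD k).2.1 _ _ (hl x hx).1 hE
  -- the far part
  have hA : ∀ x ∈ SHR_sh E (l.filter P), Lev k x.2 ∧ x.1 ≠ 0 ∧ Tendsto x.2 atTop atTop := by
    intro x hx
    obtain ⟨y, hy, rfl⟩ := List.mem_map.1 hx
    obtain ⟨hy1, hy2⟩ := List.mem_filter.1 hy
    exact ⟨hlevsub y hy1, (hl y hy1).2.1, (hP y).1 hy2⟩
  -- the rest
  have hB := SHR_const k (SHR_sh E (l.filter fun x => !P x))
    (by
      intro x hx
      obtain ⟨y, hy, rfl⟩ := List.mem_map.1 hx
      exact hlevsub y (List.mem_filter.1 hy).1)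
    (by
      intro x hx
      obtain ⟨y, hy, rfl⟩ := List.mem_map.1 hx
      obtain ⟨hy1, hy2⟩ := List.mem_filter.1 hy
      rcases (hLGD k).2.2.2 _ (hlevsub y hy1) with h | h | h
      · exact Or.inl h
      · exfalso
        rw [(hP y).2 h] at hy2
        exact absurd hy2 (by simp)
      · exact Or.inr h)
  obtain ⟨q'', T, hT, hqT⟩ := hB
  obtain ⟨g, θ, hθ0, hθ1, hg⟩ := hFRA k q'' (SHR_sh E (l.filter P))
    (fun x hx => ⟨(hA x hx).1, (hA x hx).2.2⟩)
  -- the small part
  let S : List (ℚ × (ℕ → ℤ)) := (q, fun H => 0 - E H) :: T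
  have hS1 : ∀ x ∈ S, Lev k x.2 := by
    intro x hx
    rcases List.mem_cons.1 hx with rfl | hx
    · exact (hLGD k).2.1 _ _ ((hLGD k).1 0) hE
    · exact (hT x hx).1
  have hS2 : ∀ x ∈ S, Tendsto x.2 atTop atBot := by
    intro x hx
    rcases List.mem_cons.1 hx with rfl | hx
    · simp only [zero_sub]
      exact tendsto_neg_atTop_atBot.comp hEinf
    · exact (hT x hx).2
  have hexact : ∀ᶠ H : ℕ in atTop, (f H : ℚ) = 2 ^ (E H).toNat * (g H + θ + ev S H) := by
    filter_upwards [hev, hqT, hg, hEinf.eventually_ge_atTop 0] with H h1 h2 h3 h4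
    have h5 : (2 : ℚ) ^ (E H).toNat = 2 ^ (E H) := by
      rw [← zpow_natCast, Int.toNat_of_nonneg h4]
    have h6 : (2 : ℚ) ^ (E H) * 2 ^ (-(E H)) = 1 := by
      rw [← zpow_add₀ (by norm_num : (2 : ℚ) ≠ 0), add_neg_cancel, zpow_zero]
    have h7 : ev S H = q * 2 ^ (-(E H)) + ev T H := by
      change ev ((q, fun H => 0 - E H) :: T) H = _
      rw [ev_cons]
      change q * 2 ^ (0 - E H) + _ = _
      rw [zero_sub]
    rw [SHR_ev] at h2 h3
    have h8 := SHR_ev_filter P l H
    rw [h5, h7, h1, h8]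
    have h9 : ev T H = ev (l.filter fun x => !P x) H * 2 ^ (-(E H)) - q'' := by
      rw [h2]
      ring
    rw [h9, h3]
    linear_combination (-(q + ev (l.filter P) H + ev (l.filter fun x => !P x) H)) * h6
  have hgoal : ∃ e : ℤ, ∀ᶠ H : ℕ in atTop, f H / 2 ^ (E H).toNat = g H + e := by
    have hfl : ∀ (H : ℕ) (e : ℤ), (f H : ℚ) = 2 ^ (E H).toNat * (g H + θ + ev S H) →
        (e : ℚ) ≤ θ + ev S H → θ + ev S H < e + 1 → f H / 2 ^ (E H).toNat = g H + e := by
      intro H e h1 h2 h3
      have hpos : (0 : ℤ) < 2 ^ (E H).toNat := by positivity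
      have hpos' : (0 : ℚ) < 2 ^ (E H).toNat := by positivity
      apply le_antisymm
      · have : f H / 2 ^ (E H).toNat < g H + e + 1 := by
          rw [Int.ediv_lt_iff_lt_mul hpos]
          have h4 : (f H : ℚ) < (g H + e + 1) * 2 ^ (E H).toNat := by
            rw [h1, mul_comm]
            apply mul_lt_mul_of_pos_right _ hpos'
            linarith
          exact_mod_cast h4
        omega
      · rw [Int.le_ediv_iff_mul_le hpos]
        have h4 : (g H + e : ℚ) * 2 ^ (E H).toNat ≤ f H := by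
          rw [h1, mul_comm]
          apply mul_le_mul_of_nonneg_left _ hpos'.le
          linarith
        exact_mod_cast h4
    rcases eq_or_lt_of_le hθ0 with hθ | hθ
    · have hsig : (∀ᶠ H : ℕ in atTop, 0 ≤ ev S H) ∨ (∀ᶠ H : ℕ in atTop, ev S H < 0) := by
        rcases hSIG (Lev k) (hLGD k) S hS1 with h | h | h
        · left
          filter_upwards [h] with H h1
          rw [h1]
        · left
          filter_upwards [h] with H h1
          exact h1.le
        · right
          exact h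
      have hsm := SHR_small S hS2 1 one_pos
      rcases hsig with h | h
      · refine ⟨0, ?_⟩
        filter_upwards [hexact, h, hsm] with H h1 h2 h3
        refine hfl H 0 h1 ?_ ?_
        · push_cast
          linarith
        · have := (abs_lt.1 h3).2
          push_cast
          linarith
      · refine ⟨-1, ?_⟩
        filter_upwards [hexact, h, hsm] with H h1 h2 h3
        refine hfl H (-1) h1 ?_ ?_
        · have := (abs_lt.1 h3).1
          push_cast
          linarith
        · push_cast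
          linarith
    · refine ⟨0, ?_⟩
      have hsm := SHR_small S hS2 (min θ (1 - θ)) (lt_min hθ (by linarith))
      filter_upwards [hexact, hsm] with H h1 h3
      have h4 := abs_lt.1 h3
      have h5 := min_le_left θ (1 - θ)
      have h6 := min_le_right θ (1 - θ)
      refine hfl H 0 h1 ?_ ?_
      · push_cast
        linarith
      · push_cast
        linarith
  obtain ⟨e, he⟩ := hgoal
  refine ⟨q'' - θ + e, SHR_sh E (l.filter P), ⟨hA, ?_, ?_⟩, ?_, ?_⟩
  · unfold SHR_sh
    rw [List.pairwise_map]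
    refine List.Pairwise.imp ?_ (hfar.filter P)
    intro a b hab
    unfold Far at hab ⊢
    simpa using hab
  · filter_upwards [he, hg] with H h1 h2
    rw [h1]
    push_cast
    rw [h2]
    ring
  · unfold SHR_sh
    rw [List.length_map]
    exact List.length_filter_le _ _
  · rintro ⟨x, hx, hx'⟩
    unfold SHR_sh
    rw [List.length_map, List.length_filter_lt_length_iff_exists]
    exact ⟨x, hx, fun h => hx' ((hP x).1 h)⟩

end Pool.Agent.UnivT
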